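import Pool.Agent.TH755.BL.Lin

/-!
# Linear space, `P`, `NP`, and oracles tossed with biased coins

How much may an adversary influence the coins with which a random oracle is tossed, for the
containments between linear space and `P` or `NP` relative to the oracle? The bits of the oracle are
revealed in order of length. A law is `ε`-biased if the next bit, for a string of length `m`, has
each value with conditional probability at most `1 / 2 + ε m`. Let `C` be a relativized class of
languages which contains deterministic linear space (with questions of linear length) and is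
contained in the class `Loc0 Ψ` of the languages given by one of the functionals from a list `Ψ` which
get the input and the strings of linear length in the oracle. Deterministic and nondeterministic
linear space are such classes (see `examples`). Let `D` be a relativized class between `P` and `NP`.
There are two thresholds.

* If, for every `c`, in infinitely many windows `n, ..., n ^ c` the function `ε` is at most
  `1 / n ^ c`, then for every `ε`-biased law and almost every `A`, `C ⊄ D` and `D ⊄ C`.
* Otherwise, for some `ε`-biased law and almost every `A`, `C` is a proper subclass of `D`.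
* If, for every `δ > 0`, `1 / 2 - ε m ≥ 2 ^ (-δ m)` for infinitely many `m`, then for every
  `ε`-biased law and almost every `A`, `D ⊄ C`.
* Otherwise, for some `ε`-biased law and almost every `A`, `D ⊆ C`.
-/

set_option autoImplicit false

namespace Pool.Agent.Results.MP_d19090_lc.BiasedOracles

open Pool.Agent.NPC Pool.Agent.H620R2.Gauge Pool.Agent.TH93.LN
open Pool.Agent.W900.BC (Biased)
open MeasureTheory Filter

/-- Algorithms working, deterministically or nondeterministically, on a memory of linear length, with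
questions of linear length and polynomial-time computations in each round, are examples for the
class `C`. -/
theorem examples : (∀ A L, InLinSpace A L → InNLinSpace A L) ∧
    (∀ A L, InLinSpace A L → Loc0 PsiN0 A L) ∧ ∀ A L, InNLinSpace A L → Loc0 PsiN0 A L :=
  ⟨fun _ _ h => h.toN, fun _ _ h => h.toN.loc0, fun _ _ h => h.loc0⟩

theorem result (ε : ℕ → ℝ) (hε : ∀ n, 0 ≤ ε n) (Ψ : ℕ → Oracle → List Bool → Prop)
    (C D : Oracle → Set (List Bool) → Prop) (hC₁ : ∀ A L, InLinSpace A L → C A L)
    (hC₂ : ∀ A L, C A L → Loc0 Ψ A L) (hD₁ : ∀ A L, IsP A L → D A L)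
    (hD₂ : ∀ A L, D A L → IsNP A L) :
    ((∀ c : ℕ, ∃ᶠ n : ℕ in atTop, ∀ m, n ≤ m → m ≤ n ^ c → ε m ≤ 1 / (n : ℝ) ^ c) →
      ∀ μ : Measure Oracle, IsProbabilityMeasure μ → Biased ε μ →
        ∀ᵐ A ∂μ, (∃ L, C A L ∧ ¬ D A L) ∧ ∃ L, D A L ∧ ¬ C A L) ∧
    ((¬ ∀ c : ℕ, ∃ᶠ n : ℕ in atTop, ∀ m, n ≤ m → m ≤ n ^ c → ε m ≤ 1 / (n : ℝ) ^ c) →
      ∃ μ : Measure Oracle, IsProbabilityMeasure μ ∧ Biased ε μ ∧
        ∀ᵐ A ∂μ, (∀ L, C A L → D A L) ∧ ∃ L, D A L ∧ ¬ C A L) ∧
    ((∀ δ : ℝ, 0 < δ → ∃ᶠ m : ℕ in atTop, (2 : ℝ) ^ (-(δ * m)) ≤ 1 / 2 - ε m) →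
      ∀ μ : Measure Oracle, IsProbabilityMeasure μ → Biased ε μ →
        ∀ᵐ A ∂μ, ∃ L, D A L ∧ ¬ C A L) ∧
    ((¬ ∀ δ : ℝ, 0 < δ → ∃ᶠ m : ℕ in atTop, (2 : ℝ) ^ (-(δ * m)) ≤ 1 / 2 - ε m) →
      ∃ μ : Measure Oracle, IsProbabilityMeasure μ ∧ Biased ε μ ∧
        ∀ᵐ A ∂μ, ∀ L, D A L → C A L) :=
  Pool.Agent.TH755.BL.lin_main ε hε Ψ C D hC₁ hC₂ hD₁ hD₂

end Pool.Agent.Results.MP_d19090_lc.BiasedOracles
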