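import Pool.Agent.TH683.LSP.Main

/-!
# How many strings of a random oracle have to be changed for the containments between linear space
and `P` or `NP`?

An adversary who knows the random oracle `O` changes, for all large `n`, at most `g n` of the
strings of length at most `n`; the result is the oracle `A` (`Close g O A`). Let `C` be a
relativized class of languages which contains the languages decided by one random question of linear
length (`OneQ`) and the parity language (`parLang`), and is contained in the class `Loc0 Ψ` of the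
languages given by one of the functionals from a list `Ψ` which get the input and the strings of
linear length in the oracle. Deterministic and nondeterministic linear space, with questions of
linear length, are such classes (see also `examples`). Let `D` be a relativized class between `P`
and `NP`. There are two thresholds.

* If, for every `ε > 0`, `g n ≤ 2 ^ (n ^ ε)` for infinitely many `n`, then for almost every `O` and
  for all these `A`, `C ⊄ D` and `D ⊄ C` relative to `A`.
* Otherwise every oracle `O` can be changed such that `C ⊆ D`, and almost every oracle can be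
  changed such that `C` is a proper subclass of `D`.
* If, for every `ε > 0`, `g n ≤ 2 ^ (ε n)` for infinitely many `n`, then for almost every `O` and
  for all these `A`, `D ⊄ C` relative to `A`.
* Otherwise every oracle `O` can be changed such that `D ⊆ C`.
-/

set_option autoImplicit false

namespace Pool.Agent.Results.MP_d19090_lc.ChangedStrings

open Pool.Agent.NPC Pool.Agent.H620R2.Gauge Pool.Agent.TH93.LN
open Pool.Agent.H628R3.RO (randomOracle)
open Pool.Agent.W900.CH (Close)
open MeasureTheory

/-- Algorithms working, deterministically or nondeterministically, on a memory of linear length, with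
questions of linear length and polynomial-time computations in each round, are examples for the
class `C`. -/
theorem examples : (∀ A L, OneQ A L → InLinSpace A L) ∧ (∀ A, InLinSpace A (parLang A)) ∧
    (∀ A L, InLinSpace A L → InNLinSpace A L) ∧ ∀ A L, InNLinSpace A L → Loc0 PsiN0 A L :=
  ⟨fun _ _ h => h.inLinSpace, parLang_linSpace, fun _ _ h => h.toN, fun _ _ h => h.loc0⟩

theorem result (g : ℕ → ℝ) (Ψ : ℕ → Oracle → List Bool → Prop)
    (C D : Oracle → Set (List Bool) → Prop)
    (hC₁ : ∀ A L, OneQ A L → C A L) (hC₂ : ∀ A, C A (parLang A))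
    (hC₃ : ∀ A L, C A L → Loc0 Ψ A L)
    (hD₁ : ∀ A L, IsP A L → D A L) (hD₂ : ∀ A L, D A L → IsNP A L) :
    ((∀ ε : ℝ, 0 < ε → ∃ᶠ n : ℕ in Filter.atTop, g n ≤ 2 ^ (n : ℝ) ^ ε) →
      ∀ᵐ O ∂randomOracle, ∀ A : Oracle, Close g O A →
        (∃ L, C A L ∧ ¬ D A L) ∧ ∃ L, D A L ∧ ¬ C A L) ∧
    ((¬ ∀ ε : ℝ, 0 < ε → ∃ᶠ n : ℕ in Filter.atTop, g n ≤ 2 ^ (n : ℝ) ^ ε) →
      (∀ O : Oracle, ∃ A : Oracle, Close g O A ∧ ∀ L, C A L → D A L) ∧
      ∀ᵐ O ∂randomOracle, ∃ A : Oracle, Close g O A ∧
        (∀ L, C A L → D A L) ∧ ∃ L, D A L ∧ ¬ C A L) ∧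
    ((∀ ε : ℝ, 0 < ε → ∃ᶠ n : ℕ in Filter.atTop, g n ≤ 2 ^ (ε * (n : ℝ))) →
      ∀ᵐ O ∂randomOracle, ∀ A : Oracle, Close g O A → ∃ L, D A L ∧ ¬ C A L) ∧
    ((¬ ∀ ε : ℝ, 0 < ε → ∃ᶠ n : ℕ in Filter.atTop, g n ≤ 2 ^ (ε * (n : ℝ))) →
      ∀ O : Oracle, ∃ A : Oracle, Close g O A ∧ ∀ L, D A L → C A L) :=
  Pool.Agent.TH683.LSP.changed Ψ C D g hC₁ hC₂ hC₃ hD₁ hD₂

end Pool.Agent.Results.MP_d19090_lc.ChangedStrings
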