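import Pool.Agent.TH683.LSP.DensE

/-!
# Linear space against `P` and `NP`, relative to random oracles: the density thresholds

The strings `x` are put into the oracle `A` independently, with a probability `q |x|` that depends on
the length only, where `q` is an arbitrary function (`rand q` is the distribution of `A`). Let
`rare q n = 2 ^ n * min (q n) (1 - q n)`, the expected number of the strings of length `n` for which
`A` has the less probable value. Let `Q` be any further oracle; the classes are relative to
`join Q A`, the disjoint union.

Let `C` be a relativized class of languages which contains the languages decided by one random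
question of linear length to `Q` (`OneQ`) and the languages `NoWitness b O` (no block of answers
consists of the value `!b` only, with questions of linear length), and is contained in the class
`Loc0 Ψ` of the languages given by one of the functionals from a list `Ψ` which get the input and the
strings of linear length in the oracle. Deterministic and nondeterministic linear space, with
questions of linear length, are such classes (`examples`).

(1) If the series `∑ rare q n` diverges then, for every `Q` and almost all `A`, `C ⊄ NP` (so
`C ⊄ P`) and `NP ⊄ C` relative to `join Q A`.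

(2) If it converges then there is an oracle `Q` such that `C ⊆ P` (so `C ⊆ NP`) relative to
`join Q A` for almost all `A`, and there is an oracle `Q` such that `NP ⊆ C` (so `P ⊆ C`) relative to
`join Q A` for almost all `A`.

(3) If all the series `∑ 2 ^ (δ n) * min (q n) (1 - q n)`, `δ > 0`, diverge then, for every `Q` and
almost all `A`, `P ⊄ C` relative to `join Q A`.
-/

set_option autoImplicit false

namespace Pool.Agent.Results.MP_d19090_lc.DensityThreshold

open MeasureTheory Pool.Agent.NPC Pool.Agent.H620R2.Gauge
open Pool.Agent.W900.IE (indep)
open Pool.Agent.TH93.LN (OneQ Loc0 InLinSpace InNLinSpace PsiN0)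

/-- The distribution of the random oracle: the strings `x` are in the oracle with probability
`q |x|`, independently. -/
noncomputable def rand (q : ℕ → unitInterval) : Measure Oracle := indep (fun x => q x.length)

/-- The expected number of the strings of length `n` for which the random oracle has the less
probable value. -/
noncomputable def rare (q : ℕ → unitInterval) (n : ℕ) : ℝ := 2 ^ n * min (q n : ℝ) (1 - q n)

/-- The disjoint union of the oracles `Q` and `A`. -/
def join (Q A : Oracle) : Oracle
  | [] => false
  | false :: z => Q z
  | true :: z => A z

/-- The string of length `L` consisting of the binary digits of `i` (the lowest digit first). -/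
def sfx (L i : ℕ) : List Bool := (List.range L).map (fun j => i.bits.getD j false)

/-- A language with questions of linear length: the input `y = ⟨u, ⟨v, t⟩⟩` stands for the numbers
`n = |u|`, `N = |v|` and `K = |t|`. It is in the language if, for every string `w` of length `n`,
one of the questions `true :: (w ++ s)`, where `s` is one of the first `K` strings of length
`N - n`, has the answer `b`. -/
def NoWitness (b : Bool) (O : Oracle) : Set (List Bool) :=
  {y | ∀ w : List Bool, w.length = (unpair y).1.length →
    ∃ i < (unpair (unpair y).2).2.length,
      O (true :: (w ++ sfx ((unpair (unpair y).2).1.length - (unpair y).1.length) i)) = b}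

theorem join_eq : TH680.OD.join = join := by
  funext Q A x
  rcases x with _ | ⟨b, z⟩
  · rfl
  · cases b <;> rfl

theorem noWitness_eq (b : Bool) (O : Oracle) : NoWitness b O = TH683.LSP.cosat b O := rfl

/-- Algorithms working, deterministically or nondeterministically, on a memory of linear length, with
questions of linear length and polynomial-time computations in each round, are examples for the
class `C`. -/
theorem examples : (∀ Q A L, OneQ Q L → InLinSpace (join Q A) L) ∧
    (∀ b O, InLinSpace O (NoWitness b O)) ∧
    (∀ O L, InLinSpace O L → InNLinSpace O L) ∧ ∀ O L, InNLinSpace O L → Loc0 PsiN0 O L := by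
  refine ⟨fun Q A L h => ?_, fun b O => TH683.LSP.cosat_linSpace b O, fun _ _ h => h.toN,
    fun _ _ h => h.loc0⟩
  rw [← join_eq]
  exact TH683.LSP.InLinSpace.left h.inLinSpace

/-- **Linear space against `P` and `NP`, relative to random oracles: the density thresholds.** -/
theorem result (q : ℕ → unitInterval) (Ψ : ℕ → Oracle → List Bool → Prop)
    (C : Oracle → Set (List Bool) → Prop)
    (hC₁ : ∀ Q A L, OneQ Q L → C (join Q A) L) (hC₂ : ∀ b O, C O (NoWitness b O))
    (hC₃ : ∀ O L, C O L → Loc0 Ψ O L) :
    (¬ Summable (rare q) → ∀ Q : Oracle, ∀ᵐ A ∂(rand q),
      (∃ L, C (join Q A) L ∧ ¬ IsNP (join Q A) L) ∧ ∃ L, IsNP (join Q A) L ∧ ¬ C (join Q A) L) ∧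
    (Summable (rare q) →
      (∃ Q : Oracle, ∀ᵐ A ∂(rand q), ∀ L, C (join Q A) L → IsP (join Q A) L) ∧
      ∃ Q : Oracle, ∀ᵐ A ∂(rand q), ∀ L, IsNP (join Q A) L → C (join Q A) L) ∧
    ((∀ δ : ℝ, 0 < δ → ¬ Summable (fun n : ℕ => (2 : ℝ) ^ (δ * n) * min (q n : ℝ) (1 - q n))) →
      ∀ Q : Oracle, ∀ᵐ A ∂(rand q), ∃ L, IsP (join Q A) L ∧ ¬ C (join Q A) L) := by
  rw [← join_eq] at hC₁ ⊢
  exact TH683.LSP.density q Ψ C hC₁ hC₂ hC₃

end Pool.Agent.Results.MP_d19090_lc.DensityThreshold
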