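import Pool.Agent.TH679.TS.Asym

/-!
# P ⊄ NSPACE(n): almost thrifty nondeterministic programs need space `N ^ (1 - o(1))`

The problem: a graph `bfly d ((j + 1) * d)`, a stack of `j + 1` butterfly networks with `n = 2 ^ d`
nodes in each level; each node has a table, which gives its value in `Fin k` as a function of the
values of its two children (a constant for the nodes of level 0). Has the value of the top node the
property `S`? This is the circuit value problem for a fixed layered circuit whose gates are part of
the input; the input has `N` bits, `N` is `n * j` up to a factor which is polylogarithmic in `n`.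

The model: nondeterministic branching programs (the number of states is two to the power of the
space, all other resources of the machine are not restricted), whose accepting computations read at
most `n / 64` variables that are not relevant, i.e. which are not an entry of the table of a node at
the place given by the values of its children. Thrifty programs read no such variable in any
computation; evaluation of the circuit in any order, as by pebbling strategies, is thrifty.

We show, for every `0 ≤ α < 1` and `ε > 0` and the stacks with `j = n ^ (α / (1 - α))`:
* nondeterministic almost thrifty programs that use at most `2 ^ (N ^ (α - ε))` steps need space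
  `N ^ (1 - α - ε)`;
* for `α ≥ 1 / 2` this holds without a bound for the number of steps;
* a deterministic thrifty program with at most `N` steps needs only space `N ^ (1 - α + ε)`.

So in this model polynomial time is not contained in nondeterministic space `N ^ (1 - ε)` for
time `2 ^ (N ^ o(1))`, and not contained in nondeterministic space `N ^ (1 / 2 - ε)` for any time,
and nondeterminism saves only a constant factor of the space (see the exact form in the theorem).

Proof: for a labelling `w` of the nodes by letters take an accepting computation on the input with
the relevant entries `w` and a constant letter elsewhere. It reads all relevant entries. For an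
interval of the computation consider the nodes with a parent, but not themselves, read in the
interval (missing nodes). If there are never more than `n / 8` missing nodes in one butterfly, then
by the many edge-balanced walks of a butterfly an interval with `n / 4` nodes read in a level
reads half of the nodes in the level below the next butterfly, can be cut in two such
intervals, and the computation has `2 ^ j` steps. So there is an interval with many missing nodes in
one butterfly; computations on two labellings with the same states at its ends, which differ only
in missing nodes, can be combined, and the result is an accepting computation which reads many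
irrelevant variables. Hence there are many states.
-/

set_option autoImplicit false

namespace Pool.Agent.Results.MP_d19090_lc.ThriftyLinearSpace

open Pool.Agent.TH679.PD
open Pool.Agent.TH679.TS
open Pool.Agent.W994.DE.Dag
open Pool.Agent.H554R2.Thrifty (BP)

/-- (1) Let `64 t ≤ 2 ^ d`, `d ≥ 5` and `k > (96 d) ^ 4`. If a nondeterministic program decides the
nontrivial property `S` of the value of the top node, its accepting computations read at most `t`
irrelevant variables, and every input that is to be accepted has an accepting computation with less
than `2 ^ (j + d - 2)` steps (in particular, if there are at most `2 ^ (j + d - 2)` states), then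
`(k - 1) ^ (n / 32) ≤ size ^ 2 * j`, where `n = 2 ^ d`.

(2) There is a deterministic program with at most `(number of nodes) * k ^ (2 n) + 2` states which
reads exactly one variable of each node, and only relevant variables.

(3) The asymptotic form, in terms of the number `N` of input bits. -/
theorem result :
    (∀ (d j k t : ℕ) [NeZero d] (P : BP ((bfly d ((j + 1) * d)).Var k) k) (S : Fin k → Bool)
      (a b : Fin k), 5 ≤ d → 64 * t ≤ 2 ^ d → (96 * d) ^ 4 < k → S a = true → S b = false →
      Decides P (top d j) S → Waste P t →
      ((∀ x, S (value x (top d j)) = true →
        ∃ l, P.IsComp x l true ∧ l.length < 2 ^ (j + d - 2)) ∨ P.size ≤ 2 ^ (j + d - 2)) →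
      (k - 1) ^ 2 ^ (d - 5) ≤ P.size ^ 2 * j) ∧
    (∀ (d j k : ℕ) [NeZero d] (S : Fin k → Bool), 1 ≤ k →
      ∃ P : BP ((bfly d ((j + 1) * d)).Var k) k,
        P.Deterministic ∧ P.Solves (fun x => S (value x (top d j))) ∧
        (∀ x l R, P.IsComp x l R →
          l.length = ((j + 1) * d + 1) * 2 ^ d ∧ ∀ q ∈ l, Relevant x (P.query q)) ∧
        P.size = ((j + 1) * d + 1) * 2 ^ d * k ^ (2 * 2 ^ d) + 2) ∧
    ∀ α ε : ℝ, 0 ≤ α → α < 1 → 0 < ε → ∃ d₀ : ℕ, ∀ (d : ℕ) [NeZero d], d₀ ≤ d →
      ∀ j k N : ℕ, j = ⌈((2 : ℝ) ^ d) ^ (α / (1 - α))⌉₊ → k = (96 * d) ^ 4 + 1 →
      N = Fintype.card ((bfly d ((j + 1) * d)).Var k) * Nat.clog 2 k →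
      ∀ (S : Fin k → Bool), (∃ a, S a = true) → (∃ b, S b = false) →
      (∀ P : BP ((bfly d ((j + 1) * d)).Var k) k, Decides P (top d j) S → Waste P (2 ^ d / 64) →
        (∀ x, S (value x (top d j)) = true →
          ∃ l, P.IsComp x l true ∧ (l.length : ℝ) ≤ (2 : ℝ) ^ ((N : ℝ) ^ (α - ε))) →
        (N : ℝ) ^ (1 - α - ε) ≤ Real.logb 2 P.size) ∧
      (1 / 2 ≤ α → ∀ P : BP ((bfly d ((j + 1) * d)).Var k) k, Decides P (top d j) S →
        Waste P (2 ^ d / 64) → (N : ℝ) ^ (1 - α - ε) ≤ Real.logb 2 P.size) ∧
      ∃ P : BP ((bfly d ((j + 1) * d)).Var k) k, P.Deterministic ∧
        P.Solves (fun x => S (value x (top d j))) ∧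
        (∀ x l R, P.IsComp x l R → l.length ≤ N ∧ ∀ q ∈ l, Relevant x (P.query q)) ∧
        Real.logb 2 P.size ≤ (N : ℝ) ^ (1 - α + ε) := by
  refine ⟨?_, ?_, ?_⟩
  · intro d j k t _ P S a b hd ht hk hSa hSb hP hW hT
    refine law hd ht hk hP hW hSa hSb ?_
    rcases hT with hT | hT
    · exact hT
    · intro x hx
      obtain ⟨l, h1, h2⟩ := short hP x hx
      exact ⟨l, h1, by omega⟩
  · intro d j k _ S hk
    exact upperB d j k hk S
  · intro α ε h1 h2 h3
    exact asym α ε h1 h2 h3

end Pool.Agent.Results.MP_d19090_lc.ThriftyLinearSpace
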